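import Pool.Agent.H97.VZ.Final
import Pool.Agent.H41.VH.FinH
import Pool.Agent.H95.FD.Main

/-! # Asymptotically almost every matroid has a Vamos minor (full answer to Q1)

The proofs use the rank-level theorems `Pool.Agent.H41.VH.C1_holds` and
`Pool.Agent.H95.FD.c2_holds`. -/

open scoped BigOperators
open Filter

namespace Pool.Agent.H13.VI

/-- `N` is a Vamos matroid: it has eight elements `a, a', b, b', c, c', d, d'`, rank 4, every set
of at most three elements is independent, and the dependent sets of four elements are exactly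
`{a, a', b, b'}`, `{a, a', c, c'}`, `{a, a', d, d'}`, `{b, b', c, c'}`, `{b, b', d, d'}`. -/
def IsVamos {α : Type*} (N : Matroid α) : Prop :=
  ∃ a a' b b' c c' d d' : α, [a, a', b, b', c, c', d, d'].Nodup ∧
    N.E = {a, a', b, b', c, c', d, d'} ∧ N.eRank = 4 ∧
    (∀ I ⊆ N.E, I.encard ≤ 3 → N.Indep I) ∧
    ∀ I ⊆ N.E, I.encard = 4 → (N.Dep I ↔
      I = {a, a', b, b'} ∨ I = {a, a', c, c'} ∨ I = {a, a', d, d'} ∨
      I = {b, b', c, c'} ∨ I = {b, b', d, d'})

/-- `M` has a minor which is a Vamos matroid (`Matroid.IsMinor` is the minor relation of Mathlib) -/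
def HasVamosMinor {α : Type*} (M : Matroid α) : Prop := ∃ N : Matroid α, N.IsMinor M ∧ IsVamos N

/-- the labelled matroids with `n` elements -/
abbrev LMat (n : ℕ) : Type := {M : Matroid (Fin n) // M.E = Set.univ}

/-- isomorphism of labelled matroids: some permutation of the ground set takes `M` to `N` -/
def IsIso {n : ℕ} (M N : LMat n) : Prop := ∃ e : Equiv.Perm (Fin n), M.1.mapEquiv e = N.1

/-- `M` has a nontrivial automorphism -/
def HasSymmetry {n : ℕ} (M : LMat n) : Prop :=
  ∃ e : Equiv.Perm (Fin n), e ≠ 1 ∧ M.1.mapEquiv e = M.1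

section Vamos

variable {n : ℕ}

private lemma exists_image {β : Type*} {φ : Fin 8 → β} (hφ : Function.Injective φ) {X : Set β}
    (hX : X ⊆ Set.range φ) : ∃ J : Finset (Fin 8), X = φ '' (J : Set (Fin 8)) ∧
      X.encard = (J.card : ℕ∞) := by
  classical
  refine ⟨Finset.univ.filter (fun i => φ i ∈ X), ?_, ?_⟩
  · ext x
    constructor
    · intro hx
      obtain ⟨i, rfl⟩ := hX hx
      exact ⟨i, by simpa using hx, rfl⟩
    · rintro ⟨i, hi, rfl⟩
      simpa using hi
  · have h : X = φ '' ((Finset.univ.filter (fun i => φ i ∈ X) : Finset (Fin 8)) : Set (Fin 8)) := by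
      ext x
      constructor
      · intro hx
        obtain ⟨i, rfl⟩ := hX hx
        exact ⟨i, by simpa using hx, rfl⟩
      · rintro ⟨i, hi, rfl⟩
        simpa using hi
    conv_lhs => rw [h]
    rw [hφ.encard_image, Set.encard_coe_eq_coe_finsetCard]

private lemma image_inj {β : Type*} {φ : Fin 8 → β} (hφ : Function.Injective φ)
    (I J : Finset (Fin 8)) : φ '' (I : Set (Fin 8)) = φ '' (J : Set (Fin 8)) ↔ I = J := by
  constructor
  · intro h
    exact Finset.coe_injective (hφ.image_injective h)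
  · rintro rfl
    rfl

private lemma range8 {β : Type*} (φ : Fin 8 → β) :
    Set.range φ = {φ 0, φ 1, φ 2, φ 3, φ 4, φ 5, φ 6, φ 7} := by
  ext x
  constructor
  · rintro ⟨i, rfl⟩
    fin_cases i <;> simp
  · simp only [Set.mem_insert_iff, Set.mem_singleton_iff]
    rintro (h | h | h | h | h | h | h | h) <;> exact ⟨_, h.symm⟩

private lemma image4 {β : Type*} (φ : Fin 8 → β) (i j k l : Fin 8) :
    φ '' (({i, j, k, l} : Finset (Fin 8)) : Set (Fin 8)) = {φ i, φ j, φ k, φ l} := by
  simp [Set.image_insert_eq]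

/-- the pattern of the frozen statement for a fixed numbering of the ground set -/
private def Pat {β : Type*} (N : Matroid β) (φ : Fin 8 → β) : Prop :=
  ∀ I : Finset (Fin 8), (N.Indep (φ '' (I : Set (Fin 8))) ↔
    (I.card ≤ 3 ∨ (I.card = 4 ∧ I ≠ ({0, 1, 2, 3} : Finset (Fin 8)) ∧
      I ≠ ({0, 1, 4, 5} : Finset (Fin 8)) ∧ I ≠ ({0, 1, 6, 7} : Finset (Fin 8)) ∧
      I ≠ ({2, 3, 4, 5} : Finset (Fin 8)) ∧ I ≠ ({2, 3, 6, 7} : Finset (Fin 8)))))

private lemma eRank_of_pat {β : Type*} {N : Matroid β} {φ : Fin 8 → β}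
    (hφ : Function.Injective φ) (hE : Set.range φ = N.E) (hP : Pat N φ) : N.eRank = 4 := by
  have h0 : N.Indep (φ '' (({0, 2, 4, 6} : Finset (Fin 8)) : Set (Fin 8))) := by
    rw [hP]
    right
    decide
  obtain ⟨B, hB, hsub⟩ := h0.exists_isBase_superset
  obtain ⟨J, hJ, hJc⟩ := exists_image hφ (hE ▸ hB.subset_ground)
  have h1 : J.card ≤ 4 := by
    have h2 := (hP J).1 (hJ ▸ hB.indep)
    omega
  have h3 : 4 ≤ J.card := by
    have h4 : ({0, 2, 4, 6} : Finset (Fin 8)) ⊆ J := by
      rw [hJ] at hsub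
      intro i hi
      obtain ⟨j, hj, hji⟩ := hsub ⟨i, by exact_mod_cast hi, rfl⟩
      rw [← hφ hji]
      exact_mod_cast hj
    exact le_trans (by decide) (Finset.card_le_card h4)
  rw [← hB.encard_eq_eRank, hJc, le_antisymm h1 h3]
  rfl

private lemma isVamos_of_pat {β : Type*} {N : Matroid β} {φ : Fin 8 → β}
    (hφ : Function.Injective φ) (hE : Set.range φ = N.E) (hP : Pat N φ) : IsVamos N := by
  refine ⟨φ 0, φ 1, φ 2, φ 3, φ 4, φ 5, φ 6, φ 7, ?_, ?_, eRank_of_pat hφ hE hP, ?_, ?_⟩
  · have h : [φ 0, φ 1, φ 2, φ 3, φ 4, φ 5, φ 6, φ 7] =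
        List.map φ [0, 1, 2, 3, 4, 5, 6, 7] := rfl
    rw [h]
    exact List.Nodup.map hφ (by decide)
  · rw [← hE, range8]
  · intro I hI hc
    obtain ⟨J, rfl, hJc⟩ := exists_image hφ (hE ▸ hI)
    rw [hP]
    left
    rw [hJc] at hc
    exact_mod_cast hc
  · intro I hI hc
    have hI' : I ⊆ N.E := hI
    obtain ⟨J, rfl, hJc⟩ := exists_image hφ (hE ▸ hI)
    rw [hJc] at hc
    have hc' : J.card = 4 := by exact_mod_cast hc
    rw [← Matroid.not_indep_iff hI', hP, ← image4 φ 0 1 2 3, ← image4 φ 0 1 4 5,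
      ← image4 φ 0 1 6 7, ← image4 φ 2 3 4 5, ← image4 φ 2 3 6 7, image_inj hφ, image_inj hφ,
      image_inj hφ, image_inj hφ, image_inj hφ, hc']
    tauto

private lemma pat_of_isVamos {β : Type*} {N : Matroid β} (h : IsVamos N) :
    ∃ φ : Fin 8 → β, Function.Injective φ ∧ Set.range φ = N.E ∧ Pat N φ := by
  obtain ⟨a, a', b, b', c, c', d, d', hnd, hE, hr, h3, h4⟩ := h
  let φ : Fin 8 → β := fun i => [a, a', b, b', c, c', d, d'].get i
  have hφ : Function.Injective φ := List.nodup_iff_injective_get.1 hnd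
  have hE' : Set.range φ = N.E := by
    rw [range8, hE]
    rfl
  refine ⟨φ, hφ, hE', ?_⟩
  intro I
  have hsub : φ '' (I : Set (Fin 8)) ⊆ N.E := hE' ▸ Set.image_subset_range _ _
  have hcard : (φ '' (I : Set (Fin 8))).encard = (I.card : ℕ∞) := by
    rw [hφ.encard_image, Set.encard_coe_eq_coe_finsetCard]
  rcases Nat.lt_trichotomy I.card 4 with hlt | heq | hgt
  · constructor
    · intro _
      left
      omega
    · intro _
      exact h3 _ hsub (by rw [hcard]; exact_mod_cast (by omega : I.card ≤ 3))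
  · have h5 := h4 _ hsub (by rw [hcard, heq]; rfl)
    rw [← Matroid.not_indep_iff hsub] at h5
    have e1 : ({a, a', b, b'} : Set β) = φ '' (({0, 1, 2, 3} : Finset (Fin 8)) : Set (Fin 8)) :=
      (image4 φ 0 1 2 3).symm
    have e2 : ({a, a', c, c'} : Set β) = φ '' (({0, 1, 4, 5} : Finset (Fin 8)) : Set (Fin 8)) :=
      (image4 φ 0 1 4 5).symm
    have e3 : ({a, a', d, d'} : Set β) = φ '' (({0, 1, 6, 7} : Finset (Fin 8)) : Set (Fin 8)) :=
      (image4 φ 0 1 6 7).symm
    have e4 : ({b, b', c, c'} : Set β) = φ '' (({2, 3, 4, 5} : Finset (Fin 8)) : Set (Fin 8)) :=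
      (image4 φ 2 3 4 5).symm
    have e5 : ({b, b', d, d'} : Set β) = φ '' (({2, 3, 6, 7} : Finset (Fin 8)) : Set (Fin 8)) :=
      (image4 φ 2 3 6 7).symm
    rw [e1, e2, e3, e4, e5, image_inj hφ, image_inj hφ, image_inj hφ, image_inj hφ,
      image_inj hφ] at h5
    rw [heq]
    tauto
  · constructor
    · intro hI
      have h6 := hI.encard_le_eRank
      rw [hcard, hr] at h6
      have h7 : I.card ≤ 4 := by exact_mod_cast h6
      omega
    · intro hI
      omega

/-- the formulation of the frozen statement -/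
private lemma hasVamosMinor_iff (M : Matroid (Fin n)) :
    HasVamosMinor M ↔ H28.V8.HasV8 M := by
  constructor
  · rintro ⟨N, ⟨C, D, rfl⟩, hN⟩
    obtain ⟨φ, hφ, hE, hP⟩ := pat_of_isVamos hN
    exact ⟨C, D, φ, hφ, hE, hP⟩
  · rintro ⟨C, D, φ, hφ, hE, hP⟩
    exact ⟨_, ⟨C, D, rfl⟩, isVamos_of_pat hφ hE hP⟩

end Vamos

section Count

open Pool.Agent.H97.VZ Pool.Agent.H8.VM

variable {n : ℕ}

private lemma mapEquiv_iff (M N : LMat n) (e : Equiv.Perm (Fin n)) :
    M.1.mapEquiv e = N.1 ↔ Iso e M.1 N.1 := by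
  constructor
  · intro h I
    rw [← h, Matroid.mapEquiv_indep_iff, Equiv.symm_image_image]
  · intro h
    refine Matroid.ext_indep ?_ ?_
    · rw [Matroid.mapEquiv_ground_eq, M.2, N.2, Set.image_univ, Equiv.range_eq_univ]
    · intro I _
      rw [Matroid.mapEquiv_indep_iff, h, Equiv.image_symm_image]

private lemma isIso_iff (M N : LMat n) : IsIso M N ↔ isoClass M.1 = isoClass N.1 := by
  constructor
  · rintro ⟨e, he⟩
    have h := (mapEquiv_iff M N e).1 he
    ext K
    constructor
    · rintro ⟨h1, f, hf⟩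
      exact ⟨h1, f * e⁻¹, iso_trans (iso_symm h) hf⟩
    · rintro ⟨h1, f, hf⟩
      exact ⟨h1, f * e, iso_trans h hf⟩
  · intro h
    have h1 : N.1 ∈ isoClass N.1 := ⟨N.2, 1, iso_refl N.1⟩
    rw [← h] at h1
    obtain ⟨_, e, he⟩ := h1
    exact ⟨e, (mapEquiv_iff M N e).2 he⟩

private lemma isIso_equivalence (n : ℕ) : Equivalence (IsIso (n := n)) where
  refl M := (isIso_iff M M).2 rfl
  symm h := (isIso_iff _ _).2 ((isIso_iff _ _).1 h).symm
  trans h h' := (isIso_iff _ _).2 (((isIso_iff _ _).1 h).trans ((isIso_iff _ _).1 h'))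

end Count

/-- isomorphism of labelled matroids with `n` elements as an equivalence relation -/
def isoSetoid (n : ℕ) : Setoid (LMat n) := ⟨IsIso, isIso_equivalence n⟩

/-- the unlabelled matroids with `n` elements: the isomorphism classes -/
def UMat (n : ℕ) : Type := Quotient (isoSetoid n)

/-- the isomorphism class of a labelled matroid -/
def cls {n : ℕ} (M : LMat n) : UMat n := Quotient.mk (isoSetoid n) M

/-- the number of labelled matroids with `n` elements -/
noncomputable def l (n : ℕ) : ℕ := Nat.card (LMat n)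

/-- the number of isomorphism classes of matroids with `n` elements -/
noncomputable def f (n : ℕ) : ℕ := Nat.card (UMat n)

/-- the number of labelled matroids with `n` elements which have the property `P` -/
noncomputable def lOf (n : ℕ) (P : LMat n → Prop) : ℕ := Nat.card {M : LMat n // P M}

/-- the number of isomorphism classes of matroids with `n` elements which have the property `P`
(used for properties `P` invariant under isomorphism) -/
noncomputable def fOf (n : ℕ) (P : LMat n → Prop) : ℕ :=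
  Nat.card {q : UMat n // ∃ M : LMat n, cls M = q ∧ P M}

section Count2

open Pool.Agent.H97.VZ Pool.Agent.H8.VM

variable {n : ℕ}

private lemma l_eq (n : ℕ) : l n = Nat.card {M : Matroid (Fin n) // All M} := rfl

private lemma lOf_eq (P : Matroid (Fin n) → Prop) :
    lOf n (fun M => P M.1) = Nat.card {M : Matroid (Fin n) // All M ∧ P M} := by
  unfold lOf
  exact Nat.card_congr (Equiv.subtypeSubtypeEquivSubtypeInter
    (fun M : Matroid (Fin n) => M.E = Set.univ) P)

/-- the class as a set of matroids -/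
private def toSet (q : UMat n) : Set (Matroid (Fin n)) :=
  Quotient.lift (fun M : LMat n => isoClass M.1) (fun M N h => (isIso_iff M N).1 h) q

private lemma toSet_cls (M : LMat n) : toSet (cls M) = isoClass M.1 := rfl

private lemma toSet_inj : Function.Injective (toSet (n := n)) := by
  intro p q
  refine Quotient.inductionOn₂ p q ?_
  intro M N h
  exact Quotient.sound ((isIso_iff M N).2 h)

private lemma fOf_eq (P : Matroid (Fin n) → Prop) :
    fOf n (fun M => P M.1) = Nat.card {S : Set (Matroid (Fin n)) // ∃ M : Matroid (Fin n),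
      M.E = Set.univ ∧ P M ∧ S = isoClass M} := by
  unfold fOf
  refine Nat.card_congr (Equiv.ofBijective
    (fun q => ⟨toSet q.1, by
      obtain ⟨M, h1, h2⟩ := q.2
      exact ⟨M.1, M.2, h2, by rw [← h1, toSet_cls]⟩⟩) ⟨?_, ?_⟩)
  · intro p q h
    exact Subtype.ext (toSet_inj (congrArg Subtype.val h))
  · rintro ⟨S, M, hM, hP, rfl⟩
    exact ⟨⟨cls ⟨M, hM⟩, ⟨M, hM⟩, rfl, hP⟩, rfl⟩

private lemma f_eq' (n : ℕ) : f n = fOf n (fun _ => True) := by
  unfold f fOf
  refine Nat.card_congr (Equiv.subtypeUnivEquiv ?_).symm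
  intro q
  refine Quotient.inductionOn q ?_
  intro M
  exact ⟨M, rfl, trivial⟩

private lemma f_eq (n : ℕ) : f n = Nat.card {S : Set (Matroid (Fin n)) // ∃ M : Matroid (Fin n),
      M.E = Set.univ ∧ True ∧ S = isoClass M} := by
  rw [f_eq']
  exact fOf_eq (fun _ => True)

private lemma hasSymmetry_iff (M : LMat n) : HasSymmetry M ↔ Sym M.1 := by
  constructor
  · rintro ⟨e, he, h⟩
    exact ⟨e, he, (mapEquiv_iff M M e).1 h⟩
  · rintro ⟨e, he, h⟩
    exact ⟨e, he, (mapEquiv_iff M M e).2 h⟩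

private lemma sub_card {P Q : Matroid (Fin n) → Prop} (h : ∀ M, P M → Q M) :
    Nat.card {M : Matroid (Fin n) // P M} ≤ Nat.card {M : Matroid (Fin n) // Q M} := by
  exact Nat.card_le_card_of_injective (fun x => ⟨x.1, h x.1 x.2⟩) fun x y hxy =>
    Subtype.ext (congrArg (fun z => z.1) hxy)

/-- the number of pairs of a labelled matroid and a nontrivial automorphism -/
private noncomputable def pairs (n : ℕ) : ℝ :=
  ∑ s ∈ (Finset.univ : Finset (Equiv.Perm (Fin n))).erase 1,
    (Nat.card {M : Matroid (Fin n) // All M ∧ Iso s M M} : ℝ)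

private lemma pairs_nonneg (n : ℕ) : 0 ≤ pairs n := Finset.sum_nonneg fun _ _ => by positivity

private lemma pairs_small (δ : ℝ) (hδ : 0 < δ) : ∀ᶠ n : ℕ in atTop, pairs n ≤ δ * (l n : ℝ) := by
  filter_upwards [C2_all Pool.Agent.H95.FD.c2_holds (δ / 2) (by positivity),
    extreme_small (δ / 2) (by positivity)] with n hn2 hex
  have h := sum_ranks_iso (n := n) (δ := δ / 2) (by positivity) hn2 hex
  have h' : (2 : ℝ) * (δ / 2) = δ := by ring
  rw [h'] at h
  exact h

private lemma l_pos (n : ℕ) : (0 : ℝ) < l n := by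
  have : Nonempty (LMat n) := ⟨⟨Matroid.loopyOn Set.univ, rfl⟩⟩
  have h : 0 < l n := Nat.card_pos
  exact_mod_cast h

private lemma finite_sub (P : Matroid (Fin n) → Prop) : Finite {M : Matroid (Fin n) // P M} :=
  inferInstance

/-- the labelled matroids with a symmetry are at most as many as the pairs -/
private lemma lSym_le (n : ℕ) :
    (Nat.card {M : Matroid (Fin n) // All M ∧ Sym M} : ℝ) ≤ pairs n := by
  classical
  have h1 : {M : Matroid (Fin n) | All M ∧ Sym M} ⊆
      ⋃ s ∈ (Finset.univ : Finset (Equiv.Perm (Fin n))).erase 1,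
        {M : Matroid (Fin n) | All M ∧ Iso s M M} := by
    rintro M ⟨hM, e, he, h⟩
    simp only [Set.mem_iUnion]
    exact ⟨e, Finset.mem_erase.2 ⟨he, Finset.mem_univ _⟩, hM, h⟩
  have h2 : ∀ S : Finset (Equiv.Perm (Fin n)),
      (⋃ s ∈ S, {M : Matroid (Fin n) | All M ∧ Iso s M M}).ncard ≤
      ∑ s ∈ S, ({M : Matroid (Fin n) | All M ∧ Iso s M M}).ncard := by
    intro S
    induction S using Finset.induction_on with
    | empty => simp
    | insert a S ha ih =>
      rw [Finset.set_biUnion_insert, Finset.sum_insert ha]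
      exact (Set.ncard_union_le _ _).trans (Nat.add_le_add_left ih _)
  have h3 := (Set.ncard_le_ncard h1 (Set.toFinite _)).trans (h2 _)
  unfold pairs
  exact_mod_cast h3

/-- Burnside for all matroids -/
private lemma f_bounds (n : ℕ) : (l n : ℝ) ≤ (f n : ℝ) * n.factorial ∧
    (f n : ℝ) * n.factorial ≤ (l n : ℝ) + pairs n := by
  classical
  have hb := burnside (n := n) (fun _ => True) (fun _ _ _ _ _ _ _ => trivial)
  rw [← f_eq] at hb
  have hb' : ((f n * n.factorial : ℕ) : ℝ) = ∑ s : Equiv.Perm (Fin n),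
      (Nat.card {M : Matroid (Fin n) // (M.E = Set.univ ∧ True) ∧ Iso s M M} : ℝ) := by
    rw [hb]
    push_cast
    rfl
  rw [Nat.cast_mul, ← Finset.add_sum_erase _ _ (Finset.mem_univ (1 : Equiv.Perm (Fin n)))] at hb'
  have h1 : (Nat.card {M : Matroid (Fin n) // (M.E = Set.univ ∧ True) ∧ Iso 1 M M} : ℝ) =
      l n := by
    rw [l_eq]
    congr 1
    refine Nat.card_congr (Equiv.subtypeEquivRight fun M => ?_)
    exact ⟨fun h => h.1.1, fun h => ⟨⟨h, trivial⟩, iso_refl M⟩⟩
  have h2 : ∑ s ∈ (Finset.univ : Finset (Equiv.Perm (Fin n))).erase 1,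
      (Nat.card {M : Matroid (Fin n) // (M.E = Set.univ ∧ True) ∧ Iso s M M} : ℝ) = pairs n := by
    unfold pairs
    refine Finset.sum_congr rfl fun s _ => ?_
    congr 1
    refine Nat.card_congr (Equiv.subtypeEquivRight fun M => ?_)
    exact ⟨fun h => ⟨h.1.1, h.2⟩, fun h => ⟨⟨h.1, trivial⟩, h.2⟩⟩
  rw [h1, h2] at hb'
  have h3 := pairs_nonneg n
  constructor <;> linarith

private lemma f_pos (n : ℕ) : (0 : ℝ) < f n := by
  have h1 := (f_bounds n).1
  have h2 := l_pos n
  have h3 : (0 : ℝ) < n.factorial := by exact_mod_cast Nat.factorial_pos n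
  by_contra h
  have h4 : (f n : ℝ) * n.factorial ≤ 0 :=
    mul_nonpos_of_nonpos_of_nonneg (not_lt.1 h) h3.le
  linarith

/-- Burnside for the matroids with a symmetry -/
private lemma fSym_bound (n : ℕ) : (fOf n HasSymmetry : ℝ) * n.factorial ≤ 2 * pairs n := by
  classical
  have h0 : fOf n HasSymmetry = fOf n (fun M : LMat n => H8.VM.Sym M.1) := by
    have : (HasSymmetry : LMat n → Prop) = fun M : LMat n => H8.VM.Sym M.1 := by
      funext M
      exact propext (hasSymmetry_iff M)
    rw [this]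
  rw [h0, fOf_eq]
  have hb := burnside (n := n) Sym (fun e M M' hM hM' h hq => by
    obtain ⟨g, hg, hgM⟩ := hq
    refine ⟨e * g * e⁻¹, ?_, ?_⟩
    · intro h1
      apply hg
      have h2 : g = e⁻¹ * (e * g * e⁻¹) * e := by group
      rw [h2, h1]
      group
    · exact iso_trans (iso_symm h) (iso_trans hgM h))
  have hb' : (((Nat.card {S : Set (Matroid (Fin n)) // ∃ M : Matroid (Fin n),
      M.E = Set.univ ∧ Sym M ∧ S = isoClass M}) * n.factorial : ℕ) : ℝ) =
      ∑ s : Equiv.Perm (Fin n),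
      (Nat.card {M : Matroid (Fin n) // (M.E = Set.univ ∧ Sym M) ∧ Iso s M M} : ℝ) := by
    rw [hb]
    push_cast
    rfl
  rw [Nat.cast_mul, ← Finset.add_sum_erase _ _ (Finset.mem_univ (1 : Equiv.Perm (Fin n)))] at hb'
  have h1 : (Nat.card {M : Matroid (Fin n) // (M.E = Set.univ ∧ Sym M) ∧ Iso 1 M M} : ℝ) ≤
      pairs n := by
    refine le_trans ?_ (lSym_le n)
    exact_mod_cast sub_card (P := fun M : Matroid (Fin n) =>
      (M.E = Set.univ ∧ Sym M) ∧ Iso 1 M M) (Q := fun M => All M ∧ Sym M)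
      fun M hM => ⟨hM.1.1, hM.1.2⟩
  have h2 : ∑ s ∈ (Finset.univ : Finset (Equiv.Perm (Fin n))).erase 1,
      (Nat.card {M : Matroid (Fin n) // (M.E = Set.univ ∧ Sym M) ∧ Iso s M M} : ℝ) ≤ pairs n := by
    unfold pairs
    refine Finset.sum_le_sum fun s _ => ?_
    exact_mod_cast sub_card (P := fun M : Matroid (Fin n) =>
      (M.E = Set.univ ∧ Sym M) ∧ Iso s M M) (Q := fun M => All M ∧ Iso s M M)
      fun M hM => ⟨hM.1.1, hM.2⟩
  linarith

private lemma vamos_fun : (fun M : LMat n => HasVamosMinor M.1) =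
    fun M : LMat n => H28.V8.HasV8 M.1 := by
  funext M
  exact propext (hasVamosMinor_iff M.1)

private lemma tendsto_zero {g : ℕ → ℝ} (h0 : ∀ n, 0 ≤ g n)
    (h : ∀ δ : ℝ, 0 < δ → ∀ᶠ n : ℕ in atTop, g n ≤ δ) : Tendsto g atTop (nhds 0) := by
  rw [Metric.tendsto_nhds]
  intro ε hε
  filter_upwards [h (ε / 2) (by positivity)] with n hn
  rw [Real.dist_eq, sub_zero, abs_of_nonneg (h0 n)]
  linarith

end Count2

/-- **Asymptotically almost every matroid has a Vamos minor.** Among the labelled matroids with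
`n` elements, and among the isomorphism classes of matroids with `n` elements, the proportion of
those with a minor isomorphic to the Vamos matroid tends to 1. Moreover almost every matroid has
no automorphism besides the identity, for labelled matroids and for isomorphism classes, and
`f n` is asymptotic to `l n / n!`. -/
theorem result :
    Tendsto (fun n : ℕ => (lOf n (fun M => HasVamosMinor M.1) : ℝ) / (l n : ℝ)) atTop (nhds 1) ∧
    Tendsto (fun n : ℕ => (fOf n (fun M => HasVamosMinor M.1) : ℝ) / (f n : ℝ)) atTop (nhds 1) ∧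
    Tendsto (fun n : ℕ => (lOf n HasSymmetry : ℝ) / (l n : ℝ)) atTop (nhds 0) ∧
    Tendsto (fun n : ℕ => (fOf n HasSymmetry : ℝ) / (f n : ℝ)) atTop (nhds 0) ∧
    Tendsto (fun n : ℕ => (f n : ℝ) * (n.factorial : ℝ) / (l n : ℝ)) atTop (nhds 1) := by
  have hr := H97.VZ.ratios Pool.Agent.H41.VH.C1_holds Pool.Agent.H95.FD.c2_holds
  refine ⟨?_, ?_, ?_, ?_, ?_⟩
  · refine hr.1.congr fun n => ?_
    rw [vamos_fun, lOf_eq (fun M => H28.V8.HasV8 M), l_eq]
  · refine hr.2.congr fun n => ?_
    rw [vamos_fun, fOf_eq (fun M => H28.V8.HasV8 M), f_eq]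
    congr 2
    refine Nat.card_congr (Equiv.subtypeEquivRight fun S => ?_)
    simp only [true_and]
    rfl
  · refine tendsto_zero (fun n => by positivity) fun δ hδ => ?_
    filter_upwards [pairs_small δ hδ] with n hn
    rw [div_le_iff₀ (l_pos n)]
    refine le_trans ?_ hn
    have h0 : lOf n HasSymmetry = Nat.card {M : Matroid (Fin n) // H97.VZ.All M ∧
        H8.VM.Sym M} := by
      have : (HasSymmetry : LMat n → Prop) = fun M : LMat n => H8.VM.Sym M.1 := by
        funext M
        exact propext (hasSymmetry_iff M)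
      rw [this, lOf_eq]
    rw [h0]
    exact lSym_le n
  · refine tendsto_zero (fun n => by positivity) fun δ hδ => ?_
    filter_upwards [pairs_small (δ / 2) (by positivity)] with n hn
    rw [div_le_iff₀ (f_pos n)]
    have h1 := fSym_bound n
    have h2 := (f_bounds n).1
    have h3 : (0 : ℝ) < n.factorial := by exact_mod_cast Nat.factorial_pos n
    refine le_of_mul_le_mul_right ?_ h3
    calc (fOf n HasSymmetry : ℝ) * n.factorial ≤ 2 * pairs n := h1
      _ ≤ 2 * (δ / 2 * (l n : ℝ)) := by linarith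
      _ = δ * (l n : ℝ) := by ring
      _ ≤ δ * ((f n : ℝ) * n.factorial) := mul_le_mul_of_nonneg_left h2 hδ.le
      _ = δ * (f n : ℝ) * n.factorial := by ring
  · rw [Metric.tendsto_nhds]
    intro ε hε
    filter_upwards [pairs_small (ε / 2) (by positivity)] with n hn
    have hl := l_pos n
    have hb := f_bounds n
    have h1 : 1 ≤ (f n : ℝ) * (n.factorial : ℝ) / (l n : ℝ) := by
      rw [le_div_iff₀ hl]
      linarith [hb.1]
    have h2 : (f n : ℝ) * (n.factorial : ℝ) / (l n : ℝ) ≤ 1 + ε / 2 := by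
      rw [div_le_iff₀ hl]
      linarith [hb.2]
    rw [Real.dist_eq, abs_lt]
    constructor <;> linarith

end Pool.Agent.H13.VI
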